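import Pool.Agent.Lib_helper71.Normal.Defs

set_option autoImplicit false

namespace Pool.Agent.Lib_helper71.Normal

open MeasureTheory Filter Topology

namespace W2

lemma e_re (x : ℝ) : (e x).re = Real.cos (2 * Real.pi * x) := by
  unfold e
  have : (2 * (Real.pi : ℂ) * (x : ℂ) * Complex.I) = ((2 * Real.pi * x : ℝ) : ℂ) * Complex.I := by
    push_cast; ring
  rw [this, Complex.exp_ofReal_mul_I_re]

lemma e_im (x : ℝ) : (e x).im = Real.sin (2 * Real.pi * x) := by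
  unfold e
  have : (2 * (Real.pi : ℂ) * (x : ℂ) * Complex.I) = ((2 * Real.pi * x : ℝ) : ℂ) * Complex.I := by
    push_cast; ring
  rw [this, Complex.exp_ofReal_mul_I_im]

lemma norm_e (x : ℝ) : ‖e x‖ = 1 := by
  unfold e
  have : (2 * (Real.pi : ℂ) * (x : ℂ) * Complex.I) = ((2 * Real.pi * x : ℝ) : ℂ) * Complex.I := by
    push_cast; ring
  rw [this, Complex.norm_exp_ofReal_mul_I]

lemma continuous_e : Continuous e := by
  unfold e
  fun_prop

lemma e_mul_conj_re (x y : ℝ) :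
    (e x * (starRingEnd ℂ) (e y)).re = Real.cos (2 * Real.pi * (y - x)) := by
  rw [Complex.mul_re, Complex.conj_re, Complex.conj_im, e_re, e_re, e_im, e_im]
  have : 2 * Real.pi * (y - x) = 2 * Real.pi * y - 2 * Real.pi * x := by ring
  rw [this, Real.cos_sub]
  ring

/-- the integral of a cosine -/
lemma integral_cos_le (c d K : ℝ) (hK : 0 < K) :
    ∫ x in c..d, Real.cos (2 * Real.pi * (K * x)) ≤ 1 / (Real.pi * K) := by
  have hpi := Real.pi_pos
  have h1 : ∀ x : ℝ, Real.cos (2 * Real.pi * (K * x)) = Real.cos ((2 * Real.pi * K) * x) := by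
    intro x; congr 1; ring
  simp_rw [h1]
  have hne : (2 * Real.pi * K) ≠ 0 := by positivity
  rw [intervalIntegral.integral_comp_mul_left (fun x => Real.cos x) hne, integral_cos,
    smul_eq_mul]
  have h2 := Real.sin_le_one (2 * Real.pi * K * d)
  have h3 := Real.neg_one_le_sin (2 * Real.pi * K * c)
  have h4 : (2 * Real.pi * K)⁻¹ * (Real.sin (2 * Real.pi * K * d) - Real.sin (2 * Real.pi * K * c))
      ≤ (2 * Real.pi * K)⁻¹ * 2 := by
    apply mul_le_mul_of_nonneg_left _ (by positivity)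
    linarith
  refine h4.trans (le_of_eq ?_)
  field_simp

/-- sum over a range -/
noncomputable def S (b m J N : ℕ) (x : ℝ) : ℂ :=
  ∑ i ∈ Finset.range N, e ((m : ℝ) * (b : ℝ) ^ (J + i) * x)

lemma continuous_S (b m J N : ℕ) : Continuous (S b m J N) := by
  unfold S
  apply continuous_finsetSum
  intro i _
  exact continuous_e.comp (by fun_prop)

lemma S_succ (b m J N : ℕ) (x : ℝ) :
    S b m J (N + 1) x = S b m J N x + e ((m : ℝ) * (b : ℝ) ^ (J + N) * x) := by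
  unfold S
  rw [Finset.sum_range_succ]

lemma norm_S_le (b m J N : ℕ) (x : ℝ) : ‖S b m J N x‖ ≤ N := by
  unfold S
  refine (norm_sum_le _ _).trans ?_
  simp [norm_e]

lemma norm_S_sub (b m J N M : ℕ) (h : M ≤ N) (x : ℝ) :
    ‖S b m J N x‖ ≤ ‖S b m J M x‖ + (N - M : ℝ) := by
  obtain ⟨k, rfl⟩ := Nat.exists_eq_add_of_le h
  clear h
  induction k with
  | zero => simp
  | succ k ih =>
    rw [← Nat.add_assoc, S_succ]
    refine (norm_add_le _ _).trans ?_
    rw [norm_e]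
    push_cast at ih ⊢
    linarith

lemma normSq_step (b m J N : ℕ) (x : ℝ) :
    ‖S b m J (N + 1) x‖ ^ 2 = ‖S b m J N x‖ ^ 2 + 1 +
      2 * ∑ i ∈ Finset.range N,
        Real.cos (2 * Real.pi * (((m : ℝ) * ((b : ℝ) ^ (J + N) - (b : ℝ) ^ (J + i))) * x)) := by
  rw [S_succ, ← Complex.normSq_eq_norm_sq, Complex.normSq_add, Complex.normSq_eq_norm_sq,
    Complex.normSq_eq_norm_sq, norm_e]
  congr 1
  · norm_num
  · congr 1
    unfold S
    rw [Finset.sum_mul, Complex.re_sum]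
    apply Finset.sum_congr rfl
    intro i _
    rw [e_mul_conj_re]
    congr 1
    ring

lemma nat_div_two_pow (N : ℕ) : (N : ℝ) / 2 ^ N ≤ 1 / 2 := by
  rw [div_le_div_iff₀ (by positivity) (by norm_num)]
  induction N with
  | zero => simp
  | succ k ih =>
    rcases Nat.eq_zero_or_pos k with rfl | hk
    · simp
    · have : (1 : ℝ) ≤ k := by exact_mod_cast hk
      rw [pow_succ]
      push_cast
      nlinarith

lemma integral_normSq_le (b m J : ℕ) (hb : 2 ≤ b) (hm : 1 ≤ m) (c d : ℝ) (hcd : c < d)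
    (hJ : 1 ≤ (d - c) * (b : ℝ) ^ J) (N : ℕ) :
    ∫ x in c..d, ‖S b m J N x‖ ^ 2 ≤ 2 * N * (d - c) := by
  have hpi := Real.pi_gt_three
  have hb' : (2 : ℝ) ≤ b := by exact_mod_cast hb
  have hm' : (1 : ℝ) ≤ m := by exact_mod_cast hm
  induction N with
  | zero => simp [S]
  | succ N ih =>
    have hc1 : Continuous (fun x => ‖S b m J N x‖ ^ 2) := by
      have := (continuous_S b m J N).norm
      fun_prop
    have hc2 : ∀ i ∈ Finset.range N, Continuous (fun x : ℝ => Real.cos (2 * Real.pi *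
        (((m : ℝ) * ((b : ℝ) ^ (J + N) - (b : ℝ) ^ (J + i))) * x))) := by
      intro i _
      fun_prop
    have hI : ∫ x in c..d, ‖S b m J (N + 1) x‖ ^ 2 =
        (∫ x in c..d, ‖S b m J N x‖ ^ 2) + (d - c) +
        2 * ∑ i ∈ Finset.range N, ∫ x in c..d, Real.cos (2 * Real.pi *
          (((m : ℝ) * ((b : ℝ) ^ (J + N) - (b : ℝ) ^ (J + i))) * x)) := by
      simp_rw [normSq_step]
      rw [intervalIntegral.integral_add, intervalIntegral.integral_add,
        intervalIntegral.integral_const_mul, intervalIntegral.integral_finsetSum]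
      · simp
      · intro i hi
        exact (hc2 i hi).intervalIntegrable _ _
      · exact hc1.intervalIntegrable _ _
      · exact intervalIntegrable_const
      · exact (hc1.add continuous_const).intervalIntegrable _ _
      · exact (continuous_const.mul (continuous_finsetSum _ hc2)).intervalIntegrable _ _
    rw [hI]
    have hterm : ∀ i ∈ Finset.range N, ∫ x in c..d, Real.cos (2 * Real.pi *
          (((m : ℝ) * ((b : ℝ) ^ (J + N) - (b : ℝ) ^ (J + i))) * x)) ≤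
          2 / (3 * (b : ℝ) ^ (J + N)) := by
      intro i hi
      have hiN : i < N := Finset.mem_range.mp hi
      have hpow : (b : ℝ) ^ (J + i) * 2 ≤ (b : ℝ) ^ (J + N) := by
        have h1 : (b : ℝ) ^ (J + i) * 2 ≤ (b : ℝ) ^ (J + i) * b :=
          mul_le_mul_of_nonneg_left hb' (by positivity)
        have h2 : (b : ℝ) ^ (J + i) * b = (b : ℝ) ^ (J + i + 1) := by rw [pow_succ]
        have h3 : (b : ℝ) ^ (J + i + 1) ≤ (b : ℝ) ^ (J + N) :=
          pow_le_pow_right₀ (by linarith) (by omega)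
        linarith
      have hpos : (0 : ℝ) < (b : ℝ) ^ (J + N) := by positivity
      have hK : (b : ℝ) ^ (J + N) / 2 ≤ (m : ℝ) * ((b : ℝ) ^ (J + N) - (b : ℝ) ^ (J + i)) := by
        have h1 : (b : ℝ) ^ (J + N) / 2 ≤ ((b : ℝ) ^ (J + N) - (b : ℝ) ^ (J + i)) := by linarith
        have h2 : ((b : ℝ) ^ (J + N) - (b : ℝ) ^ (J + i)) ≤
            (m : ℝ) * ((b : ℝ) ^ (J + N) - (b : ℝ) ^ (J + i)) :=
          le_mul_of_one_le_left (by linarith) hm'
        linarith
      refine (integral_cos_le c d _ (by linarith)).trans ?_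
      have hKpos : 0 < (m : ℝ) * ((b : ℝ) ^ (J + N) - (b : ℝ) ^ (J + i)) := by linarith
      rw [div_le_div_iff₀ (mul_pos Real.pi_pos hKpos) (by positivity)]
      have : 3 * ((b : ℝ) ^ (J + N) / 2) ≤
          Real.pi * ((m : ℝ) * ((b : ℝ) ^ (J + N) - (b : ℝ) ^ (J + i))) :=
        mul_le_mul hpi.le hK (by positivity) (by linarith)
      linarith
    have hsum := Finset.sum_le_sum hterm
    rw [Finset.sum_const, Finset.card_range, nsmul_eq_mul] at hsum
    have hfin : (N : ℝ) * (2 / (3 * (b : ℝ) ^ (J + N))) ≤ (d - c) / 3 := by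
      have h1 := nat_div_two_pow N
      have h2 : (2 : ℝ) ^ N ≤ (b : ℝ) ^ N := pow_le_pow_left₀ (by norm_num) hb' N
      have h3 : (N : ℝ) / (b : ℝ) ^ N ≤ 1 / 2 := by
        refine le_trans ?_ h1
        gcongr
      have h4 : 1 / (b : ℝ) ^ J ≤ d - c := by
        rw [div_le_iff₀ (by positivity)]
        exact hJ
      have h5 : (N : ℝ) * (2 / (3 * (b : ℝ) ^ (J + N))) =
          (2 / 3) * ((N : ℝ) / (b : ℝ) ^ N) * (1 / (b : ℝ) ^ J) := by
        rw [pow_add]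
        field_simp
      rw [h5]
      have h6 : (2 / 3 : ℝ) * ((N : ℝ) / (b : ℝ) ^ N) ≤ 1 / 3 := by linarith
      calc (2 / 3 : ℝ) * ((N : ℝ) / (b : ℝ) ^ N) * (1 / (b : ℝ) ^ J)
          ≤ (1 / 3) * (d - c) := mul_le_mul h6 h4 (by positivity) (by norm_num)
        _ = (d - c) / 3 := by ring
    push_cast
    nlinarith

/-- Chebyshev at square lengths. -/
lemma volume_bad_le (b m J : ℕ) (hb : 2 ≤ b) (hm : 1 ≤ m) (c d : ℝ) (hcd : c < d)
    (hJ : 1 ≤ (d - c) * (b : ℝ) ^ J) (N : ℕ) (t : ℝ) (ht : 0 < t) :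
    volume {x ∈ Set.Icc c d | t ≤ ‖S b m J N x‖} ≤
      ENNReal.ofReal (2 * N * (d - c) / t ^ 2) := by
  have h := integral_normSq_le b m J hb hm c d hcd hJ N
  rw [intervalIntegral.integral_of_le hcd.le, ← integral_Icc_eq_integral_Ioc] at h
  have hc1 : Continuous (fun x => ‖S b m J N x‖ ^ 2) := by
    have := (continuous_S b m J N).norm
    fun_prop
  have hint : IntegrableOn (fun x => ‖S b m J N x‖ ^ 2) (Set.Icc c d) volume :=
    hc1.continuousOn.integrableOn_Icc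
  have hch := mul_meas_ge_le_integral_of_nonneg (μ := volume.restrict (Set.Icc c d))
    (f := fun x => ‖S b m J N x‖ ^ 2) (Filter.Eventually.of_forall (fun x => by positivity))
    hint (t ^ 2)
  have hset : {x ∈ Set.Icc c d | t ≤ ‖S b m J N x‖} ⊆
      {x | t ^ 2 ≤ ‖S b m J N x‖ ^ 2} ∩ Set.Icc c d := by
    rintro x ⟨hx, hx2⟩
    exact ⟨pow_le_pow_left₀ ht.le hx2 2, hx⟩
  have hfin : volume.restrict (Set.Icc c d) {x | t ^ 2 ≤ ‖S b m J N x‖ ^ 2} ≠ ⊤ :=
    measure_ne_top _ _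
  refine (measure_mono hset).trans ?_
  have hmeas : MeasurableSet {x | t ^ 2 ≤ ‖S b m J N x‖ ^ 2} :=
    measurableSet_le measurable_const hc1.measurable
  rw [← Measure.restrict_apply hmeas]
  rw [← ENNReal.ofReal_toReal hfin]
  apply ENNReal.ofReal_le_ofReal
  rw [le_div_iff₀ (by positivity), mul_comm]
  exact hch.trans h

end W2

open W2 in
theorem weyl_interval (B : ℕ) (ε ζ : ℝ) (hε : 0 < ε) (hζ : 0 < ζ) :
    ∃ N0 : ℕ, ∀ c d : ℝ, c < d → ∀ J : ℕ → ℕ,
      (∀ b, 2 ≤ b → b ≤ B → 1 ≤ (d - c) * (b : ℝ) ^ J b) →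
      MeasureTheory.volume {x ∈ Set.Icc c d | ∃ b m N : ℕ, 2 ≤ b ∧ b ≤ B ∧ 1 ≤ m ∧ m ≤ B ∧
        ε * N + N0 < ‖∑ j ∈ Finset.Ico (J b) (J b + N), e (m * b ^ j * x)‖} ≤
        ENNReal.ofReal (ζ * (d - c)) := by
  -- the tail of the sum of inverse squares
  have htail := tendsto_sum_nat_add (fun n : ℕ => 1 / (n : ℝ) ^ 2)
  have hsummable : Summable (fun n : ℕ => 1 / (n : ℝ) ^ 2) :=
    Real.summable_one_div_nat_pow.mpr (by norm_num)
  set κ : ℝ := ζ * ε ^ 2 / (8 * ((B : ℝ) + 1) ^ 2) with hκ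
  have hκpos : 0 < κ := by positivity
  obtain ⟨M0, hM0⟩ := (((tendsto_order.1 htail).2 κ hκpos).and (eventually_ge_atTop 1)).exists
  obtain ⟨hM0, hM0'⟩ := hM0
  obtain ⟨N1, hN1⟩ := exists_nat_ge (2 / ε)
  refine ⟨N1 + (M0 + 1) ^ 2, ?_⟩
  intro c d hcd J hJ
  set A : ℕ → ℕ → ℕ → Set ℝ := fun b m M =>
    {x ∈ Set.Icc c d | ε * ((M : ℝ) + M0) ^ 2 / 2 ≤ ‖S b m (J b) ((M + M0) ^ 2) x‖} with hA
  have hsub : {x ∈ Set.Icc c d | ∃ b m N : ℕ, 2 ≤ b ∧ b ≤ B ∧ 1 ≤ m ∧ m ≤ B ∧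
        ε * N + ((N1 + (M0 + 1) ^ 2 : ℕ) : ℝ) <
          ‖∑ j ∈ Finset.Ico (J b) (J b + N), e (m * b ^ j * x)‖} ⊆
      ⋃ b ∈ Finset.Icc 2 B, ⋃ m ∈ Finset.Icc 1 B, ⋃ M : ℕ, A b m M := by
    rintro x ⟨hx, b, m, N, hb2, hbB, hm1, hmB, hN⟩
    have hSeq : ∑ j ∈ Finset.Ico (J b) (J b + N), e ((m : ℝ) * (b : ℝ) ^ j * x) =
        S b m (J b) N x := by
      rw [Finset.sum_Ico_eq_sum_range]
      simp [S]
    rw [hSeq] at hN
    set M := Nat.sqrt N with hM
    have hM1 : M ^ 2 ≤ N := Nat.sqrt_le' N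
    have hM2 : N < (M + 1) ^ 2 := Nat.lt_succ_sqrt' N
    have hM2' : (N : ℝ) + 1 ≤ ((M : ℝ) + 1) ^ 2 := by exact_mod_cast hM2
    have hM1' : (M : ℝ) ^ 2 ≤ N := by exact_mod_cast hM1
    have hge : M0 ≤ M := by
      by_contra hlt
      push Not at hlt
      have h1 : (M : ℝ) + 1 ≤ M0 := by exact_mod_cast hlt
      have h2 := norm_S_le b m (J b) N x
      push_cast at hN
      have h3 : (0 : ℝ) ≤ ε * N := by positivity
      have h4 : (0 : ℝ) ≤ N1 := by positivity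
      have h5 : (0 : ℝ) ≤ M := by positivity
      nlinarith
    have h1 := norm_S_sub b m (J b) N (M ^ 2) hM1 x
    simp only [Set.mem_iUnion, Finset.mem_Icc]
    refine ⟨b, ⟨hb2, hbB⟩, m, ⟨hm1, hmB⟩, M - M0, hx, ?_⟩
    have hMM : M - M0 + M0 = M := Nat.sub_add_cancel hge
    rw [hMM]
    have hcast : ((M - M0 : ℕ) : ℝ) + (M0 : ℝ) = M := by exact_mod_cast hMM
    rw [hcast]
    push_cast at hN h1
    have h3 : 2 ≤ ε * N1 := by
      have := (div_le_iff₀ hε).mp hN1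
      linarith
    have h4 : 2 * (M : ℝ) ≤ ε * (M : ℝ) ^ 2 / 2 + N1 := by
      have h5 : 0 ≤ (ε * M - 2) ^ 2 := sq_nonneg _
      have h6 : 4 * (ε * (M : ℝ)) ≤ ε ^ 2 * (M : ℝ) ^ 2 + 2 * (ε * N1) := by nlinarith
      have h7 : ε * (2 * (M : ℝ)) ≤ ε * (ε * (M : ℝ) ^ 2 / 2 + N1) := by nlinarith
      exact le_of_mul_le_mul_left h7 hε
    have h8 : ε * (M : ℝ) ^ 2 ≤ ε * N := mul_le_mul_of_nonneg_left hM1' hε.le
    have h9 : (0 : ℝ) ≤ ((M0 : ℝ) + 1) ^ 2 := by positivity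
    nlinarith
  refine (measure_mono hsub).trans ?_
  have hb1 : ∀ b ∈ Finset.Icc 2 B, ∀ m ∈ Finset.Icc 1 B,
      volume (⋃ M : ℕ, A b m M) ≤ ENNReal.ofReal (8 * (d - c) / ε ^ 2 * κ) := by
    intro b hb m hm
    obtain ⟨hb2, hbB⟩ := Finset.mem_Icc.mp hb
    obtain ⟨hm1, hmB⟩ := Finset.mem_Icc.mp hm
    have hshift : Summable (fun M : ℕ => 1 / ((M + M0 : ℕ) : ℝ) ^ 2) :=
      (summable_nat_add_iff M0).mpr hsummable
    have hone : ∀ M : ℕ, volume (A b m M) ≤
        ENNReal.ofReal (8 * (d - c) / ε ^ 2 * (1 / ((M + M0 : ℕ) : ℝ) ^ 2)) := by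
      intro M
      have hpos : (0 : ℝ) < (M : ℝ) + M0 := by
        have : (1 : ℝ) ≤ M0 := by exact_mod_cast hM0'
        positivity
      have ht : (0 : ℝ) < ε * ((M : ℝ) + M0) ^ 2 / 2 := by positivity
      refine (volume_bad_le b m (J b) hb2 hm1 c d hcd (hJ b hb2 hbB) ((M + M0) ^ 2) _ ht).trans ?_
      apply ENNReal.ofReal_le_ofReal
      apply le_of_eq
      push_cast
      field_simp
      ring
    calc volume (⋃ M : ℕ, A b m M) ≤ ∑' M, volume (A b m M) := measure_iUnion_le _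
      _ ≤ ∑' M : ℕ, ENNReal.ofReal (8 * (d - c) / ε ^ 2 * (1 / ((M + M0 : ℕ) : ℝ) ^ 2)) :=
          ENNReal.tsum_le_tsum hone
      _ = ENNReal.ofReal (∑' M : ℕ, (8 * (d - c) / ε ^ 2 * (1 / ((M + M0 : ℕ) : ℝ) ^ 2))) := by
          rw [ENNReal.ofReal_tsum_of_nonneg]
          · intro M
            have : 0 < d - c := by linarith
            positivity
          · exact hshift.mul_left _
      _ ≤ ENNReal.ofReal (8 * (d - c) / ε ^ 2 * κ) := by
          apply ENNReal.ofReal_le_ofReal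
          rw [tsum_mul_left]
          apply mul_le_mul_of_nonneg_left hM0.le
          have : 0 < d - c := by linarith
          positivity
  calc volume (⋃ b ∈ Finset.Icc 2 B, ⋃ m ∈ Finset.Icc 1 B, ⋃ M : ℕ, A b m M)
      ≤ ∑ b ∈ Finset.Icc 2 B, volume (⋃ m ∈ Finset.Icc 1 B, ⋃ M : ℕ, A b m M) :=
        measure_biUnion_finset_le _ _
    _ ≤ ∑ b ∈ Finset.Icc 2 B, ∑ m ∈ Finset.Icc 1 B, volume (⋃ M : ℕ, A b m M) :=
        Finset.sum_le_sum (fun b _ => measure_biUnion_finset_le _ _)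
    _ ≤ ∑ b ∈ Finset.Icc 2 B, ∑ m ∈ Finset.Icc 1 B, ENNReal.ofReal (8 * (d - c) / ε ^ 2 * κ) :=
        Finset.sum_le_sum (fun b hb => Finset.sum_le_sum (fun m hm => hb1 b hb m hm))
    _ ≤ ENNReal.ofReal (ζ * (d - c)) := by
        rw [Finset.sum_const, Finset.sum_const, nsmul_eq_mul, nsmul_eq_mul]
        have hdc : 0 < d - c := by linarith
        rw [← ENNReal.ofReal_natCast, ← ENNReal.ofReal_natCast,
          ← ENNReal.ofReal_mul (by positivity), ← ENNReal.ofReal_mul (by positivity)]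
        apply ENNReal.ofReal_le_ofReal
        have hc1 : ((Finset.Icc 2 B).card : ℝ) ≤ (B : ℝ) + 1 := by
          rw [Nat.card_Icc]
          have : B + 1 - 2 ≤ B + 1 := Nat.sub_le _ _
          exact_mod_cast this
        have hc2 : ((Finset.Icc 1 B).card : ℝ) ≤ (B : ℝ) + 1 := by
          rw [Nat.card_Icc]
          have : B + 1 - 1 ≤ B + 1 := Nat.sub_le _ _
          exact_mod_cast this
        have hq : 8 * (d - c) / ε ^ 2 * κ = ζ * (d - c) / (((B : ℝ) + 1) ^ 2) := by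
          rw [hκ]
          field_simp
        rw [hq]
        have hnn : 0 ≤ ζ * (d - c) / (((B : ℝ) + 1) ^ 2) := by positivity
        calc ((Finset.Icc 2 B).card : ℝ) * (((Finset.Icc 1 B).card : ℝ) *
              (ζ * (d - c) / (((B : ℝ) + 1) ^ 2)))
            ≤ ((B : ℝ) + 1) * (((B : ℝ) + 1) * (ζ * (d - c) / (((B : ℝ) + 1) ^ 2))) := by
              gcongr
          _ = ζ * (d - c) := by
              field_simp

end Pool.Agent.Lib_helper71.Normal
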