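import Pool.Agent.Lib_helper71.Normal.Defs

set_option autoImplicit false

namespace Pool.Agent.Lib_helper71.Normal

open Filter Topology

theorem not_simplyNormal_of_zero_blocks (b : ℕ) (hb : 2 ≤ b) (ξ τ : ℝ) (hτ : 1 < τ)
    (h : ∀ N0 : ℕ, ∃ N ≥ N0, ∀ j : ℕ, N < j → (j : ℝ) ≤ τ * N → digit b ξ j = 0) :
    ¬ SimplyNormal b ξ := by
  intro hs
  have hs0 := hs 0 (by omega)
  have hb' : (2 : ℝ) ≤ b := by exact_mod_cast hb
  set κ : ℝ := 1 - 1 / (b : ℝ) with hκ
  have hκpos : 0 < κ := by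
    have : 1 / (b : ℝ) ≤ 1 / 2 := one_div_le_one_div_of_le (by norm_num) hb'
    rw [hκ]; linarith
  set ε : ℝ := κ * (τ - 1) / (2 * (τ + 3)) with hε
  have hεpos : 0 < ε := by
    apply div_pos (mul_pos hκpos (by linarith)) (by linarith)
  set c : ℕ → ℕ := fun N =>
    ((Finset.Icc 1 N).filter (fun j => digit b ξ j = ((0 : ℕ) : ℤ))).card with hc
  have hev : ∀ᶠ n : ℕ in atTop, |(c n : ℝ) / n - 1 / b| < ε := by
    have := (Metric.tendsto_nhds.mp hs0) ε hεpos
    filter_upwards [this] with n hn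
    rw [Real.dist_eq] at hn
    exact hn
  obtain ⟨n0, hn0⟩ := eventually_atTop.mp hev
  obtain ⟨n1, hn1⟩ := exists_nat_ge (2 / (τ - 1))
  obtain ⟨N, hN, hdig⟩ := h (max n0 (max n1 1))
  have hNn0 : n0 ≤ N := le_trans (le_max_left _ _) hN
  have hNn1 : n1 ≤ N := le_trans (le_trans (le_max_left _ _) (le_max_right _ _)) hN
  have hN1 : 1 ≤ N := le_trans (le_trans (le_max_right _ _) (le_max_right _ _)) hN
  have hNpos : (0 : ℝ) < N := by exact_mod_cast hN1
  set N' : ℕ := ⌊τ * N⌋₊ with hN'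
  have hτN : (0 : ℝ) ≤ τ * N := by positivity
  have hN'le : (N' : ℝ) ≤ τ * N := Nat.floor_le hτN
  have hN'gt : τ * N - 1 < N' := by
    have := Nat.lt_floor_add_one (τ * (N : ℝ))
    rw [← hN'] at this
    linarith
  have hNN' : N ≤ N' := by
    rw [hN']
    apply Nat.le_floor
    nlinarith
  have hN'pos : (0 : ℝ) < N' := lt_of_lt_of_le hNpos (by exact_mod_cast hNN')
  have hcN' : c N' = c N + (N' - N) := by
    have hsplit : Finset.Icc 1 N' = Finset.Icc 1 N ∪ Finset.Ioc N N' := by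
      ext j
      simp only [Finset.mem_Icc, Finset.mem_union, Finset.mem_Ioc]
      omega
    have hdisj : Disjoint (Finset.Icc 1 N) (Finset.Ioc N N') := by
      rw [Finset.disjoint_left]
      intro j hj hj2
      rw [Finset.mem_Icc] at hj
      rw [Finset.mem_Ioc] at hj2
      omega
    have hfull : (Finset.Ioc N N').filter (fun j => digit b ξ j = ((0 : ℕ) : ℤ)) =
        Finset.Ioc N N' := by
      apply Finset.filter_true_of_mem
      intro j hj
      rw [Finset.mem_Ioc] at hj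
      have h1 : (j : ℝ) ≤ N' := by exact_mod_cast hj.2
      have := hdig j hj.1 (h1.trans hN'le)
      simpa using this
    simp only [hc]
    rw [hsplit, Finset.filter_union, Finset.card_union_of_disjoint
      (Finset.disjoint_filter_filter hdisj), hfull, Nat.card_Ioc]
  have h1 := hn0 N hNn0
  have h2 := hn0 N' (hNn0.trans hNN')
  rw [abs_lt] at h1 h2
  have h3 : (1 / (b : ℝ) - ε) * N < c N := by
    have : 1 / (b : ℝ) - ε < (c N : ℝ) / N := by linarith
    exact (lt_div_iff₀ hNpos).mp this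
  have h4 : (c N' : ℝ) < (1 / (b : ℝ) + ε) * N' := by
    have : (c N' : ℝ) / N' < 1 / (b : ℝ) + ε := by linarith
    exact (div_lt_iff₀ hN'pos).mp this
  have h5 : (c N' : ℝ) = c N + (N' - N : ℝ) := by
    rw [hcN', Nat.cast_add, Nat.cast_sub hNN']
  have h6 : (N' : ℝ) * (κ - ε) < N * (κ + ε) := by
    rw [hκ]
    nlinarith
  have h7 : (1 + τ) / 2 * N ≤ N' := by
    have h8 : 2 ≤ (τ - 1) * N := by
      have h9 : 2 / (τ - 1) ≤ N := hn1.trans (by exact_mod_cast hNn1)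
      rw [div_le_iff₀ (by linarith)] at h9
      linarith
    nlinarith
  have hκε : 0 < κ - ε := by
    have : ε < κ := by
      rw [hε, div_lt_iff₀ (by linarith)]
      nlinarith
    linarith
  have h10 : (1 + τ) / 2 * N * (κ - ε) < N * (κ + ε) :=
    lt_of_le_of_lt (mul_le_mul_of_nonneg_right h7 hκε.le) h6
  have h11 : (1 + τ) / 2 * (κ - ε) < κ + ε := by
    have : N * ((1 + τ) / 2 * (κ - ε)) < N * (κ + ε) := by linarith
    exact lt_of_mul_lt_mul_left this hNpos.le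
  have h12 : ε * (2 * (τ + 3)) = κ * (τ - 1) := by
    rw [hε]
    field_simp
  have h13 : 0 < κ * (τ - 1) := mul_pos hκpos (by linarith)
  nlinarith

theorem digit_eq_zero (b N M : ℕ) (hb : 2 ≤ b) (a : ℤ) (ξ : ℝ)
    (h0 : 0 ≤ ξ - a / (b : ℝ) ^ N) (h1 : ξ - a / (b : ℝ) ^ N < ((b : ℝ) ^ M)⁻¹)
    (j : ℕ) (hj : N < j) (hj' : j ≤ M) : digit b ξ j = 0 := by
  have hb' : (2 : ℝ) ≤ b := by exact_mod_cast hb
  have hbpos : (0 : ℝ) < b := by linarith
  obtain ⟨k, rfl⟩ := Nat.exists_eq_add_of_lt hj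
  have hfl : ⌊(b : ℝ) ^ (N + k + 1) * ξ⌋ = a * (b : ℤ) ^ (k + 1) := by
    rw [Int.floor_eq_iff]
    push_cast
    have hexp : (b : ℝ) ^ (N + k + 1) = (b : ℝ) ^ N * (b : ℝ) ^ (k + 1) := by
      rw [← pow_add]; congr 1
    have hpos : (0 : ℝ) < (b : ℝ) ^ (N + k + 1) := by positivity
    have key : (b : ℝ) ^ (N + k + 1) * ξ - a * (b : ℝ) ^ (k + 1) =
        (b : ℝ) ^ (N + k + 1) * (ξ - a / (b : ℝ) ^ N) := by
      rw [hexp]
      field_simp
    have hge : 0 ≤ (b : ℝ) ^ (N + k + 1) * (ξ - a / (b : ℝ) ^ N) := mul_nonneg hpos.le h0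
    have hlt : (b : ℝ) ^ (N + k + 1) * (ξ - a / (b : ℝ) ^ N) < 1 := by
      calc (b : ℝ) ^ (N + k + 1) * (ξ - a / (b : ℝ) ^ N)
          < (b : ℝ) ^ (N + k + 1) * ((b : ℝ) ^ M)⁻¹ := mul_lt_mul_of_pos_left h1 hpos
        _ ≤ (b : ℝ) ^ M * ((b : ℝ) ^ M)⁻¹ := by
          apply mul_le_mul_of_nonneg_right _ (by positivity)
          exact pow_le_pow_right₀ (by linarith) hj'
        _ = 1 := mul_inv_cancel₀ (by positivity)
    constructor
    · linarith
    · linarith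
  unfold digit
  rw [hfl, pow_succ, ← mul_assoc]
  exact Int.mul_emod_left _ _

end Pool.Agent.Lib_helper71.Normal
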